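import Pool.Agent.U29.EU.Stm

/-!
Project EU, package AE (helper908): almost all polynomials have only finitely many near-resonant
triads, by the Borel-Cantelli lemma.
-/

set_option autoImplicit false

namespace Pool.Agent.U29.EU.AEp

open MeasureTheory Pool.Agent.N983.RT Pool.Agent.U136.DS

theorem nsq_one_le (k : Wv) (hk : k ≠ 0) : 1 ≤ nsq k := by
  have : ∃ i, k i ≠ 0 := by
    by_contra hc
    push Not at hc
    exact hk (funext hc)
  obtain ⟨i, hi⟩ := this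
  have h2 : (k i : ℝ) ^ 2 ≤ nsq k := by
    unfold nsq
    exact Finset.single_le_sum (f := fun i => (k i : ℝ) ^ 2) (fun j _ => sq_nonneg _)
      (Finset.mem_univ i)
  have h3 : (1 : ℝ) ≤ (k i : ℝ) ^ 2 := by
    have : 1 ≤ (k i) ^ 2 := by
      have := sq_pos_of_ne_zero hi
      omega
    exact_mod_cast this
  linarith

theorem nsq_nonneg (k : Wv) : 0 ≤ nsq k := Finset.sum_nonneg fun _ _ => sq_nonneg _

theorem mx_one (k l m : Wv) (hk : k ≠ 0) : 1 ≤ mx k l m :=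
  (nsq_one_le k hk).trans (le_max_left _ _)

theorem mx_three (k l m : Wv) (hk : k ≠ 0) : (1 + nsq k + nsq l) / 3 ≤ mx k l m := by
  have h1 := mx_one k l m hk
  have h2 : nsq k ≤ mx k l m := le_max_left _ _
  have h3 : nsq l ≤ mx k l m := (le_max_left _ _).trans (le_max_right _ _)
  linarith

theorem near_mono (lam : Wv → ℝ) (c₁ c₂ τ τ' : ℝ) (hc : c₂ ≤ c₁) (h0 : 0 ≤ c₁) (hτ : τ' ≤ τ)
    (k l m : Wv) (hn : near lam c₂ τ' k l m ≠ 0) : near lam c₁ τ k l m ≠ 0 := by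
  unfold near at hn ⊢
  split_ifs at hn with h1
  · rw [if_pos]
    · exact one_ne_zero
    · refine ⟨h1.1, h1.2.1, h1.2.2.1, h1.2.2.2.trans_le ?_⟩
      have h2 := mx_one k l m h1.1
      calc c₂ * mx k l m ^ (τ' / 2) ≤ c₁ * mx k l m ^ (τ' / 2) :=
            mul_le_mul_of_nonneg_right hc (Real.rpow_nonneg (by linarith) _)
        _ ≤ c₁ * mx k l m ^ (τ / 2) :=
            mul_le_mul_of_nonneg_left (Real.rpow_le_rpow_of_exponent_le h2 (by linarith)) h0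
  · exact absurd rfl hn

theorem mem_cub' (k : Wv) (R : ℕ) (h : ∑ i, (k i).natAbs ≤ R) : k ∈ cub R := by
  unfold cub
  rw [Fintype.mem_piFinset]
  intro i
  have h1 : (k i).natAbs ≤ ∑ i, (k i).natAbs :=
    Finset.single_le_sum (f := fun i => (k i).natAbs) (fun _ _ => Nat.zero_le _) (Finset.mem_univ i)
  rw [Finset.mem_Icc]
  omega

theorem finN_of_finite (lam : Wv → ℝ) (c₁ τ : ℝ)
    (h : {p : Wv × Wv | near lam c₁ τ p.1 p.2 (-(p.1 + p.2)) ≠ 0}.Finite) : FinN lam c₁ τ := by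
  obtain ⟨R, hR⟩ := (h.image fun p : Wv × Wv => ∑ i, (p.1 i).natAbs + ∑ i, (p.2 i).natAbs).bddAbove
  refine ⟨R, fun k l hn => ?_⟩
  have h1 : ∑ i, (k i).natAbs + ∑ i, (l i).natAbs ≤ R := by
    apply hR
    exact ⟨(k, l), hn, rfl⟩
  exact ⟨mem_cub' k R (by omega), mem_cub' l R (by omega)⟩

/-- the exceptional set of a triad -/
def bad {d : ℕ} (lam : Wv → ℝ) (n : ℕ) (τ : ℝ) (p : Wv × Wv) : Set (Mi d → ℝ) :=
  {c | (p.1 ≠ 0 ∧ p.2 ≠ 0 ∧ -(p.1 + p.2) ≠ 0) ∧ (∀ i, |c i| ≤ (n : ℝ)) ∧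
    |(lam p.1 + lam p.2 + lam (-(p.1 + p.2))) +
      ∑ β, c β * (mon β p.1 + mon β p.2 + mon β (-(p.1 + p.2)))| ≤
      n * mx p.1 p.2 (-(p.1 + p.2)) ^ (τ / 2)}

theorem near_bad {d : ℕ} (lam : Wv → ℝ) (n : ℕ) (τ : ℝ) (c : Mi d → ℝ) (hc : ∀ i, |c i| ≤ (n : ℝ))
    (p : Wv × Wv) (h : near (fun k => lam k + pol c k) n τ p.1 p.2 (-(p.1 + p.2)) ≠ 0) :
    c ∈ bad lam n τ p := by
  unfold near at h
  split_ifs at h with h1
  · refine ⟨⟨h1.1, h1.2.1, h1.2.2.1⟩, hc, ?_⟩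
    refine le_trans (le_of_eq ?_) h1.2.2.2.le
    congr 1
    unfold pol
    simp only [mul_add, Finset.sum_add_distrib]
    ring
  · exact absurd rfl h

theorem vol_bad (hSLAB : S_SLAB) {d : ℕ} {κ : ℝ} (hκ : 0 < κ)
    (hV : ∀ k l m : Wv, k ≠ 0 → l ≠ 0 → m ≠ 0 → k + l + m = 0 →
      ∃ β : Mi d, κ * mx k l m ^ (((d : ℝ) - 1) / 2) ≤ |mon β k + mon β l + mon β m|)
    (lam : Wv → ℝ) (n : ℕ) (τ : ℝ) (hτ : τ < (d : ℝ) - 7) (p : Wv × Wv) :
    volume (bad (d := d) lam n τ p) ≤ ENNReal.ofReal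
      (((2 * (n : ℝ)) ^ (Fintype.card (Mi d) - 1) * (2 * n / κ) *
          (1 / 3 : ℝ) ^ (-((d : ℝ) - 1 - τ) / 2)) *
        (1 + nsq p.1 + nsq p.2) ^ (-((d : ℝ) - 1 - τ) / 2)) := by
  obtain ⟨k, l⟩ := p
  by_cases h0 : k ≠ 0 ∧ l ≠ 0 ∧ -(k + l) ≠ 0
  swap
  · have : bad (d := d) lam n τ (k, l) = ∅ := by
      ext c
      simp only [bad, Set.mem_ofPred_eq, Set.mem_empty_iff_false, iff_false]
      rintro ⟨h1, -⟩
      exact h0 h1
    rw [this, measure_empty]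
    exact bot_le
  · obtain ⟨β, hβ⟩ := hV k l (-(k + l)) h0.1 h0.2.1 h0.2.2 (by abel)
    have hm := mx_one k l (-(k + l)) h0.1
    have hm3 := mx_three k l (-(k + l)) h0.1
    set X := mx k l (-(k + l)) with hX
    have hX0 : 0 < X := by linarith
    have ha : 0 < κ * X ^ (((d : ℝ) - 1) / 2) := mul_pos hκ (Real.rpow_pos_of_pos hX0 _)
    have hh : 0 ≤ (n : ℝ) * X ^ (τ / 2) := mul_nonneg n.cast_nonneg (Real.rpow_nonneg hX0.le _)
    have h1 := hSLAB (Mi d) (fun β => mon β k + mon β l + mon β (-(k + l)))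
      (κ * X ^ (((d : ℝ) - 1) / 2)) (lam k + lam l + lam (-(k + l))) ((n : ℝ) * X ^ (τ / 2)) n
      ha hh n.cast_nonneg ⟨β, hβ⟩
    refine le_trans (measure_mono ?_) (h1.trans (ENNReal.ofReal_le_ofReal ?_))
    · rintro c ⟨-, h2, h3⟩
      exact ⟨h2, h3⟩
    · rw [mul_assoc, mul_assoc]
      apply mul_le_mul_of_nonneg_left _ (by positivity)
      have h2 : 2 * ((n : ℝ) * X ^ (τ / 2)) / (κ * X ^ (((d : ℝ) - 1) / 2)) =
          2 * n / κ * X ^ (-((d : ℝ) - 1 - τ) / 2) := by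
        have : X ^ (τ / 2) = X ^ (-((d : ℝ) - 1 - τ) / 2) * X ^ (((d : ℝ) - 1) / 2) := by
          rw [← Real.rpow_add hX0]
          congr 1
          ring
        rw [this]
        have h3 : X ^ (((d : ℝ) - 1) / 2) ≠ 0 := (Real.rpow_pos_of_pos hX0 _).ne'
        field_simp
      rw [h2]
      apply mul_le_mul_of_nonneg_left _ (by positivity)
      have h4 : 0 < (1 + nsq k + nsq l) := by
        have := nsq_nonneg k
        have := nsq_nonneg l
        linarith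
      rw [← Real.mul_rpow (by norm_num) h4.le]
      apply Real.rpow_le_rpow_of_nonpos
      · positivity
      · linarith
      · linarith

end Pool.Agent.U29.EU.AEp

namespace Pool.Agent.U29.EU

open MeasureTheory Pool.Agent.N983.RT Pool.Agent.U136.DS AEp

/-- **Package AE**. -/
theorem t_AE : S_AE := by
  intro hSLAB hVEC hCNT d hd hd3 lam
  obtain ⟨κ, hκ, hV⟩ := hVEC d hd hd3
  have key : ∀ n : ℕ, ∀ᵐ c : Mi d → ℝ,
      {p : Wv × Wv | c ∈ bad lam n ((d : ℝ) - 7 - 1 / ((n : ℝ) + 1)) p}.Finite := by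
    intro n
    have hn : 0 < 1 / ((n : ℝ) + 1) := by positivity
    set τ : ℝ := (d : ℝ) - 7 - 1 / ((n : ℝ) + 1) with hτ
    apply ae_finite_setOfPred_mem
    have hs := hCNT ((d : ℝ) - 1 - τ) (by linarith)
    have hs2 := hs.mul_left ((2 * (n : ℝ)) ^ (Fintype.card (Mi d) - 1) * (2 * n / κ) *
          (1 / 3 : ℝ) ^ (-((d : ℝ) - 1 - τ) / 2))
    refine ne_top_of_le_ne_top hs2.tsum_ofReal_ne_top (ENNReal.tsum_le_tsum fun p => ?_)
    exact vol_bad hSLAB hκ hV lam n τ (by linarith) p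
  filter_upwards [ae_all_iff.2 key] with c hc
  intro c₁ τ hτ
  -- choose n
  obtain ⟨n, hn⟩ := exists_nat_ge (c₁ + ∑ i, |c i| + 1 / ((d : ℝ) - 7 - τ) + |c₁|)
  have h0 : 0 < (d : ℝ) - 7 - τ := by linarith
  have h1 : 0 < 1 / ((d : ℝ) - 7 - τ) := by positivity
  have h2 : 0 ≤ ∑ i, |c i| := Finset.sum_nonneg fun _ _ => abs_nonneg _
  have h3 := neg_abs_le c₁
  have h4 := le_abs_self c₁
  have h5 : ∀ i, |c i| ≤ (n : ℝ) := by
    intro i
    have := Finset.single_le_sum (f := fun i => |c i|) (fun _ _ => abs_nonneg _)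
      (Finset.mem_univ i)
    linarith
  have h6 : c₁ ≤ (n : ℝ) := by
    have := abs_nonneg c₁
    linarith
  have h7 : τ ≤ (d : ℝ) - 7 - 1 / ((n : ℝ) + 1) := by
    have h8 : 1 / ((d : ℝ) - 7 - τ) ≤ (n : ℝ) + 1 := by linarith
    have h9 : 1 / ((n : ℝ) + 1) ≤ (d : ℝ) - 7 - τ := by
      rw [div_le_iff₀ (by positivity)]
      rw [div_le_iff₀ h0] at h8
      linarith
    linarith
  apply finN_of_finite
  refine (hc n).subset fun p hp => ?_
  exact near_bad lam n _ c h5 p (near_mono _ _ _ _ _ h6 n.cast_nonneg h7 _ _ _ hp)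

end Pool.Agent.U29.EU
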